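import Mathlib

set_option autoImplicit false
open scoped ContDiff Manifold Topology Matrix
open MeasureTheory Filter Set

namespace Pool.Agent.QTot

/-- `ℝ^n` -/
abbrev Eu (n : ℕ) : Type := Fin n → ℝ

/-- real `n × n` matrices -/
abbrev Mt (n : ℕ) : Type := Matrix (Fin n) (Fin n) ℝ

/-- partial derivative in the `i`-th coordinate -/
noncomputable def pd {n : ℕ} (i : Fin n) (f : Eu n → ℝ) (x : Eu n) : ℝ :=
  fderiv ℝ f x (Pi.single i 1)

/-- Christoffel symbols `Γ^k_{ij}` of a matrix field -/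
noncomputable def Gam {n : ℕ} (G : Eu n → Mt n) (k i j : Fin n) (x : Eu n) : ℝ :=
  (1 / 2) * ∑ l, (G x)⁻¹ k l *
    (pd i (fun y => G y j l) x + pd j (fun y => G y i l) x - pd l (fun y => G y i j) x)

/-- Ricci tensor
`R_{ij} = ∂_k Γ^k_{ij} - ∂_j Γ^k_{ik} + Γ^k_{kl} Γ^l_{ij} - Γ^k_{jl} Γ^l_{ik}` -/
noncomputable def Ric {n : ℕ} (G : Eu n → Mt n) (x : Eu n) : Mt n := Matrix.of fun i j =>
  ∑ k, pd k (Gam G k i j) x - ∑ k, pd j (Gam G k i k) x +
    ∑ k, ∑ l, (Gam G k k l x * Gam G l i j x - Gam G k j l x * Gam G l i k x)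

/-- Laplacian of a function: trace of the Hessian `g^{ij} (∂_i ∂_j f - Γ^k_{ij} ∂_k f)` -/
noncomputable def Lap {n : ℕ} (G : Eu n → Mt n) (f : Eu n → ℝ) (x : Eu n) : ℝ :=
  ∑ i, ∑ j, (G x)⁻¹ i j * (pd i (pd j f) x - ∑ k, Gam G k i j x * pd k f x)

/-- derivative in the parameter `r` (written `ρ` in the literature) of a one-parameter family of matrix fields -/
noncomputable def dr {n : ℕ} (P : ℝ → Eu n → Mt n) (r : ℝ) (x : Eu n) : Mt n :=
  Matrix.of fun i j => deriv (fun s => P s x i j) r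

/-- `tr (g_r⁻¹ g_r')` -/
noncomputable def tau {n : ℕ} (P : ℝ → Eu n → Mt n) (r : ℝ) (x : Eu n) : ℝ :=
  ((P r x)⁻¹ * dr P r x).trace

/-- The Fefferman-Graham equation: `EFG P = 0` says that `2ρ dt² + 2t dt dρ + t² g_ρ` has vanishing tangential
Ricci curvature, `ρ g'' - ρ g' g⁻¹ g' + (1/2) ρ tr(g⁻¹g') g' - (n/2 - 1) g' - (1/2) tr(g⁻¹g') g + Ric(g_ρ)`. -/
noncomputable def EFG {n : ℕ} (P : ℝ → Eu n → Mt n) (r : ℝ) (x : Eu n) : Mt n :=
  r • dr (dr P) r x - r • (dr P r x * (P r x)⁻¹ * dr P r x) + (r * tau P r x / 2) • dr P r x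
    - ((n : ℝ) / 2 - 1) • dr P r x - (tau P r x / 2) • P r x + Ric (P r) x

/-- `k`-th Taylor coefficient at `0` -/
noncomputable def cf (k : ℕ) (f : ℝ → ℝ) : ℝ := iteratedDeriv k f 0 / (k.factorial : ℝ)

/-- the coefficient of `r^k` of the Fefferman-Graham expression of a family -/
noncomputable def res {n : ℕ} (P : ℝ → Eu n → Mt n) (k : ℕ) (x : Eu n) : Mt n :=
  Matrix.of fun i j => cf k (fun r => EFG P r x i j)

/-- The next coefficient of the ambient expansion: if `P` solves the equation below order `k`, then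
`P + r^(k+1) X` with `X = nxt G P k` solves it to order `k` (for `k + 1 < n/2`); for `k + 1 = n/2` only the trace of the
equation can be solved, and `X` is the pure trace solution. -/
noncomputable def nxt {n : ℕ} (G : Eu n → Mt n) (P : ℝ → Eu n → Mt n) (k : ℕ) (x : Eu n) : Mt n :=
  let t : ℝ := ((G x)⁻¹ * res P k x).trace / (((k : ℝ) + 1) * ((n : ℝ) - 1 - k))
  if k + 1 < n / 2 then
    (1 / (((k : ℝ) + 1) * ((n : ℝ) / 2 - 1 - k))) • (res P k x - (((k : ℝ) + 1) * t / 2) • G x)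
  else (t / n) • G x

/-- the ambient family of the metric `G` up to order `k` in `r` -/
noncomputable def amb {n : ℕ} (G : Eu n → Mt n) : ℕ → ℝ → Eu n → Mt n
  | 0 => fun _ x => G x
  | k + 1 => fun r x => amb G k r x + r ^ (k + 1) • nxt G (amb G k) k x

/-- The ambient Laplacian on functions of homogeneity `w`: `Δ̃ (t^w f) = t^(w-2) Dw P w f`. -/
noncomputable def Dw {n : ℕ} (P : ℝ → Eu n → Mt n) (w : ℝ) (f : ℝ → Eu n → ℝ) (r : ℝ) (x : Eu n) : ℝ :=
  -2 * r * deriv (deriv (fun s => f s x)) r + (2 * w + n - 2 - r * tau P r x) * deriv (fun s => f s x) r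
    + Lap (P r) (f r) x + w / 2 * tau P r x * f r x

/-- `Δ̃^(k+1) log t = t^(-2(k+1)) uu P k` -/
noncomputable def uu {n : ℕ} (P : ℝ → Eu n → Mt n) : ℕ → ℝ → Eu n → ℝ
  | 0 => fun r x => tau P r x / 2
  | k + 1 => Dw P (-2 * ((k : ℝ) + 1)) (uu P k)

/-- The critical Q-curvature of the metric `G` in dimension `n` (even):
`Q = - (-Δ̃)^(n/2) log t` at `ρ = 0`, `t = 1`. -/
noncomputable def Qloc {n : ℕ} (G : Eu n → Mt n) (x : Eu n) : ℝ :=
  -(-1) ^ (n / 2) * uu (amb G (n / 2)) (n / 2 - 1) 0 x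

/-- Jacobian matrix -/
noncomputable def Jac {n : ℕ} (φ : Eu n → Eu n) (x : Eu n) : Mt n :=
  Matrix.of fun a i => pd i (fun y => φ y a) x

/-- the coordinate change from the chart `e` to the chart `e'` -/
noncomputable def trn {n : ℕ} {M : Type} [TopologicalSpace M] (e e' : OpenPartialHomeomorph M (Eu n))
    (y : Eu n) : Eu n := e' (e.symm y)

/-- A smooth Riemannian metric on the manifold `M`, given by its matrices in the charts of the atlas: they are smooth,
positive definite, and transform as a covariant 2-tensor. -/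
structure RMetric (n : ℕ) (M : Type) [TopologicalSpace M] [ChartedSpace (Eu n) M] where
  /-- the matrix of the metric in the chart `e` at the point of coordinates `y` -/
  G : OpenPartialHomeomorph M (Eu n) → Eu n → Mt n
  smooth : ∀ e ∈ atlas (Eu n) M, ∀ i j, ContDiffOn ℝ ∞ (fun y => G e y i j) e.target
  posDef : ∀ e ∈ atlas (Eu n) M, ∀ y ∈ e.target, (G e y).PosDef
  compat : ∀ e ∈ atlas (Eu n) M, ∀ e' ∈ atlas (Eu n) M, ∀ y ∈ e.target, e.symm y ∈ e'.source →
    G e y = (Jac (trn e e') y)ᵀ * G e' (trn e e' y) * Jac (trn e e') y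

/-- the Q-curvature of a Riemannian metric, computed in the preferred chart at the point -/
noncomputable def RMetric.Q {n : ℕ} {M : Type} [TopologicalSpace M] [ChartedSpace (Eu n) M]
    (g : RMetric n M) (x : M) : ℝ :=
  Qloc (g.G (chartAt (Eu n) x)) (chartAt (Eu n) x x)

/-- `μ` is the Riemannian volume measure of `g`: in each chart it has density `√det G` -/
def RMetric.IsVolume {n : ℕ} {M : Type} [TopologicalSpace M] [ChartedSpace (Eu n) M] [MeasurableSpace M]
    (g : RMetric n M) (μ : Measure M) : Prop :=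
  ∀ e ∈ atlas (Eu n) M, ∀ A ⊆ e.source, MeasurableSet A →
    μ A = ∫⁻ y in e '' A, ENNReal.ofReal (Real.sqrt (g.G e y).det)

end Pool.Agent.QTot

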